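import Pool.Agent.L0h44.LC.Stm

/-!
# LC, module PI1: the fundamental group of the realization
-/

set_option autoImplicit false

namespace Pool.Agent.L0h10.LC

open Pool.Agent.H933R3 Pool.Agent.L0h44.LC
open scoped unitInterval Topology
open CategoryTheory

section transport

variable {X : Type} [TopologicalSpace X] {H : Type} [Group H]

/-- multiplicative and homotopy invariant functions of paths -/
structure Tr (X : Type) [TopologicalSpace X] (H : Type) [Group H] where
  T : ∀ {y z : X}, Path y z → H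
  hom : ∀ {y z : X} {γ δ : Path y z}, γ.Homotopic δ → T γ = T δ
  trans : ∀ {x y z : X} (γ : Path x y) (δ : Path y z), T (γ.trans δ) = T γ * T δ

namespace Tr

variable (τ : Tr X H)

lemma refl (x : X) : τ.T (Path.refl x) = 1 := by
  have h := τ.trans (Path.refl x) (Path.refl x)
  rw [Path.refl_trans_refl] at h
  exact (left_eq_mul.1 h)

lemma symm {x y : X} (γ : Path x y) : τ.T γ.symm = (τ.T γ)⁻¹ := by
  have h := τ.trans γ γ.symm
  have h2 : (γ.trans γ.symm).Homotopic (Path.refl x) := ⟨(Path.Homotopy.reflTransSymm γ).symm⟩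
  rw [τ.hom h2, τ.refl] at h
  exact eq_inv_of_mul_eq_one_right h.symm

lemma cast {x y x' y' : X} (γ : Path x y) (hx : x' = x) (hy : y' = y) : τ.T (γ.cast hx hy) = τ.T γ := by
  subst hx hy
  rfl

/-- if the transport is given by a potential locally, it is given by it globally -/
theorem global (f : X → H) (U : X → Set X) (hU : ∀ x, U x ∈ 𝓝 x)
    (hf : ∀ x y z (γ : Path y z), (∀ t, γ t ∈ U x) → τ.T γ = f y * (f z)⁻¹) {y z : X} (γ : Path y z) :
    τ.T γ = f y * (f z)⁻¹ := by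
  set F : I → H := fun t => τ.T (γ.subpath 0 t) * f (γ t) with hF
  have hloc : IsLocallyConstant F := by
    rw [IsLocallyConstant.iff_eventually_eq]
    intro t0
    have h1 : γ ⁻¹' (U (γ t0)) ∈ 𝓝 t0 := γ.continuous.continuousAt.preimage_mem_nhds (hU _)
    have h2 : ∀ᶠ t in 𝓝 t0, Set.uIcc t0 t ⊆ γ ⁻¹' (U (γ t0)) := by
      have h3 : Filter.Tendsto (fun t : I => Set.uIcc t0 t) (𝓝 t0) (𝓝 t0).smallSets :=
        Filter.Tendsto.uIcc tendsto_const_nhds Filter.tendsto_id
      exact (Filter.tendsto_smallSets_iff.1 h3) _ h1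
    filter_upwards [h2] with t ht
    have h4 : τ.T (γ.subpath 0 t) = τ.T (γ.subpath 0 t0) * τ.T (γ.subpath t0 t) := by
      rw [← τ.trans]
      exact τ.hom (⟨(Path.Homotopy.subpathTransSubpath γ 0 t0 t).symm⟩)
    have h5 : τ.T (γ.subpath t0 t) = f (γ t0) * (f (γ t))⁻¹ := by
      refine hf (γ t0) _ _ _ fun s => ?_
      have h6 : γ.subpath t0 t s ∈ Set.range (γ.subpath t0 t) := ⟨s, rfl⟩
      rw [Path.range_subpath] at h6
      obtain ⟨r, hr, hr2⟩ := h6
      rw [← hr2]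
      exact ht hr
    simp only [hF]
    rw [h4, h5]
    group
  have h01 : F 1 = F 0 := hloc.apply_eq_of_isPreconnected isPreconnected_univ (Set.mem_univ _) (Set.mem_univ _)
  simp only [hF] at h01
  rw [Path.subpath_self, τ.refl, one_mul, Path.subpath_zero_one, τ.cast, γ.target, γ.source] at h01
  rw [← h01]
  group

end Tr

/-- the transport defined by a homomorphism on the fundamental group -/
noncomputable def ofHom (x : X) (φ : FundamentalGroup X x →* H) (P : ∀ y : X, Path x y) : Tr X H where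
  T := fun {y z} γ => (φ (FundamentalGroupoid.fromPath (Path.Homotopic.Quotient.mk (P y)) ≫
    FundamentalGroupoid.fromPath (Path.Homotopic.Quotient.mk γ) ≫
    inv (FundamentalGroupoid.fromPath (Path.Homotopic.Quotient.mk (P z)))))⁻¹
  hom := by
    intro y z γ δ h
    have : FundamentalGroupoid.fromPath (Path.Homotopic.Quotient.mk γ) =
      FundamentalGroupoid.fromPath (Path.Homotopic.Quotient.mk δ) :=
      (FundamentalGroupoid.fromPath_eq_iff_homotopic γ δ).2 h
    rw [this]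
  trans := by
    intro w y z γ δ
    rw [← mul_inv_rev, ← map_mul]
    congr 2
    have h1 : FundamentalGroupoid.fromPath (Path.Homotopic.Quotient.mk (γ.trans δ)) =
      FundamentalGroupoid.fromPath (Path.Homotopic.Quotient.mk γ) ≫
      FundamentalGroupoid.fromPath (Path.Homotopic.Quotient.mk δ) := rfl
    rw [h1, End.mul_def]
    simp only [Category.assoc, IsIso.inv_hom_id_assoc]

theorem ofHom_trivial (x : X) (φ : FundamentalGroup X x →* H) (P : ∀ y : X, Path x y)
    (h : ∀ γ : Path x x, (ofHom x φ P).T γ = 1) : φ = 1 := by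
  ext q
  obtain ⟨γ, hγ⟩ : ∃ γ : Path x x, Path.Homotopic.Quotient.mk γ = q := Quotient.exists_rep q
  have h1 := h γ
  have h2 : (ofHom x φ P).T γ = (φ (FundamentalGroupoid.fromPath (Path.Homotopic.Quotient.mk (P x)) ≫
    FundamentalGroupoid.fromPath (Path.Homotopic.Quotient.mk γ) ≫
    inv (FundamentalGroupoid.fromPath (Path.Homotopic.Quotient.mk (P x)))))⁻¹ := rfl
  rw [h2, inv_eq_one] at h1
  set p : FundamentalGroup X x := FundamentalGroupoid.fromPath (Path.Homotopic.Quotient.mk (P x)) with hp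
  have h3 : (FundamentalGroupoid.fromPath (Path.Homotopic.Quotient.mk (P x)) ≫
    FundamentalGroupoid.fromPath (Path.Homotopic.Quotient.mk γ) ≫
    inv (FundamentalGroupoid.fromPath (Path.Homotopic.Quotient.mk (P x)))) = p⁻¹ * q * p := by
    rw [End.mul_def, End.mul_def, ← hγ]
    rw [← Groupoid.inv_eq_inv]
    rfl
  rw [h3, map_mul, map_mul, map_inv] at h1
  have h4 : φ q = φ p * 1 * (φ p)⁻¹ := by rw [← h1]; group
  rw [h4, MonoidHom.one_apply]
  group

end transport

section star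

variable {n : ℕ} {D : Finset (Finset (Fin n))}

/-- paths in a star-convex part of the realization with the same endpoints are homotopic -/
theorem homotopic_of_star {S : Set (Fin n → ℝ)} {c : Fin n → ℝ} (hS : S ⊆ realization D) (hc : c ∈ S)
    (hst : StarConvex ℝ c S) {y z : realization D} (γ δ : Path y z) (hγ : ∀ t, (γ t).1 ∈ S)
    (hδ : ∀ t, (δ t).1 ∈ S) : γ.Homotopic δ := by
  have hcs : ContractibleSpace S := hst.contractibleSpace ⟨c, hc⟩
  have hy : y.1 ∈ S := by simpa using hγ 0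
  have hz : z.1 ∈ S := by simpa using hγ 1
  set i : C(S, realization D) := ⟨Set.inclusion hS, continuous_inclusion hS⟩ with hi
  let mk : ∀ ε : Path y z, (∀ t, (ε t).1 ∈ S) → Path (⟨y.1, hy⟩ : S) ⟨z.1, hz⟩ := fun ε hε =>
    { toFun := fun t => ⟨(ε t).1, hε t⟩
      continuous_toFun := (continuous_subtype_val.comp ε.continuous).subtype_mk _
      source' := by simp
      target' := by simp }
  have h1 : (mk γ hγ).Homotopic (mk δ hδ) := SimplyConnectedSpace.paths_homotopic _ _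
  have h2 := h1.map i
  exact h2

/-- the closed simplex -/
def Cs (A : Finset (Fin n)) : Set (Fin n → ℝ) := {y | (∀ i, 0 ≤ y i) ∧ ∑ i, y i = 1 ∧ ∀ i, i ∉ A → y i = 0}

/-- the open star of a vertex -/
def St (D : Finset (Finset (Fin n))) (v : Fin n) : Set (Fin n → ℝ) := {y | y ∈ realization D ∧ y v ≠ 0}

lemma Cs_sub {A : Finset (Fin n)} (hA : A ∈ D) : Cs A ⊆ realization D := fun y hy => ⟨hy.1, hy.2.1, A, hA, hy.2.2⟩

lemma Cs_convex (A : Finset (Fin n)) : Convex ℝ (Cs A) := by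
  rintro x ⟨hx1, hx2, hx3⟩ y ⟨hy1, hy2, hy3⟩ a b ha hb hab
  refine ⟨fun i => ?_, ?_, fun i hi => ?_⟩
  · simp only [Pi.add_apply, Pi.smul_apply, smul_eq_mul]
    have := hx1 i; have := hy1 i; positivity
  · simp only [Pi.add_apply, Pi.smul_apply, smul_eq_mul]
    rw [Finset.sum_add_distrib, ← Finset.mul_sum, ← Finset.mul_sum, hx2, hy2, mul_one, mul_one, hab]
  · simp only [Pi.add_apply, Pi.smul_apply, smul_eq_mul]
    rw [hx3 i hi, hy3 i hi, mul_zero, mul_zero, add_zero]

lemma vx_mem_Cs {A : Finset (Fin n)} {v : Fin n} (hv : v ∈ A) : (Pi.single v 1 : Fin n → ℝ) ∈ Cs A := by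
  refine ⟨fun i => ?_, ?_, fun i hi => ?_⟩
  · by_cases h : i = v
    · subst h; simp
    · simp [h]
  · simp
  · have : i ≠ v := fun h => hi (h ▸ hv)
    simp [this]

/-- the support -/
noncomputable def sp (y : Fin n → ℝ) : Finset (Fin n) := Finset.univ.filter (fun i => y i ≠ 0)

lemma sp_mem (hD : IsCx D) {y : Fin n → ℝ} (hy : y ∈ realization D) : sp y ∈ D := by
  obtain ⟨-, -, A, hA, h⟩ := hy
  refine hD.2 A hA _ fun i hi => ?_
  by_contra h1
  exact (Finset.mem_filter.1 hi).2 (h i h1)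

lemma mem_Cs_sp {y : Fin n → ℝ} (hy : y ∈ realization D) : y ∈ Cs (sp y) := by
  refine ⟨hy.1, hy.2.1, fun i hi => ?_⟩
  by_contra h1
  exact hi (Finset.mem_filter.2 ⟨Finset.mem_univ _, h1⟩)

lemma exists_sp {y : Fin n → ℝ} (hy : y ∈ realization D) : ∃ v, v ∈ sp y := by
  by_contra h
  push Not at h
  have h1 : ∑ i, y i = 0 := Finset.sum_eq_zero fun i _ => by
    by_contra h2
    exact h i (Finset.mem_filter.2 ⟨Finset.mem_univ _, h2⟩)
  rw [hy.2.1] at h1
  exact one_ne_zero h1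

lemma single_mem (hD : IsCx D) {A : Finset (Fin n)} (hA : A ∈ D) {v : Fin n} (hv : v ∈ A) : ({v} : Finset (Fin n)) ∈ D :=
  hD.2 A hA _ (by simpa using hv)

/-- the open star is star-convex -/
lemma St_star (hD : IsCx D) {v : Fin n} (hv : ({v} : Finset (Fin n)) ∈ D) :
    StarConvex ℝ (Pi.single v 1 : Fin n → ℝ) (St D v) := by
  rintro y ⟨hy, hyv⟩ a b ha hb hab
  have hvs : v ∈ sp y := Finset.mem_filter.2 ⟨Finset.mem_univ _, hyv⟩
  have h1 := Cs_convex (sp y) (vx_mem_Cs hvs) (mem_Cs_sp hy) ha hb hab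
  refine ⟨Cs_sub (sp_mem hD hy) h1, ?_⟩
  simp only [Pi.add_apply, Pi.smul_apply, smul_eq_mul, Pi.single_eq_same, mul_one]
  have h2 : 0 < y v := lt_of_le_of_ne (hy.1 v) (Ne.symm hyv)
  rcases eq_or_lt_of_le ha with h3 | h3
  · have : b = 1 := by linarith
    rw [← h3, this]; simp [hyv]
  · have : 0 ≤ b * y v := mul_nonneg hb h2.le
    linarith

lemma St_sub {v : Fin n} : St D v ⊆ realization D := fun _ h => h.1

lemma vx_mem_St {v : Fin n} (hv : ({v} : Finset (Fin n)) ∈ D) : (Pi.single v 1 : Fin n → ℝ) ∈ St D v :=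
  ⟨Cs_sub hv (vx_mem_Cs (Finset.mem_singleton_self v)), by simp⟩

/-- the vertex as a point of the realization -/
noncomputable def vx {v : Fin n} (hv : ({v} : Finset (Fin n)) ∈ D) : realization D :=
  ⟨Pi.single v 1, (vx_mem_St hv).1⟩

/-- a path of segments, or any path -/
lemma exists_seg {S : Set (Fin n → ℝ)} (hS : S ⊆ realization D) (y z : realization D)
    (h : ∀ t : ℝ, 0 ≤ t → t ≤ 1 → (1 - t) • y.1 + t • z.1 ∈ S) : ∃ γ : Path y z, ∀ t, (γ t).1 ∈ S := by
  refine ⟨⟨⟨fun t => ⟨(1 - (t : ℝ)) • y.1 + (t : ℝ) • z.1, hS (h _ t.2.1 t.2.2)⟩, ?_⟩, ?_, ?_⟩, fun t => h _ t.2.1 t.2.2⟩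
  · refine Continuous.subtype_mk ?_ _
    fun_prop
  · apply Subtype.ext; simp
  · apply Subtype.ext; simp

lemma exists_seg_Cs {A : Finset (Fin n)} (hA : A ∈ D) (y z : realization D) (hy : y.1 ∈ Cs A) (hz : z.1 ∈ Cs A) :
    ∃ γ : Path y z, ∀ t, (γ t).1 ∈ Cs A :=
  exists_seg (Cs_sub hA) y z fun t h0 h1 => Cs_convex A hy hz (by linarith) h0 (by ring)

lemma exists_seg_St (hD : IsCx D) {v : Fin n} (hv : ({v} : Finset (Fin n)) ∈ D) (y : realization D) (hy : y.1 v ≠ 0) :
    ∃ γ : Path y (vx hv), ∀ t, (γ t).1 ∈ St D v ∩ Cs (sp y.1) := by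
  have hvs : v ∈ sp y.1 := Finset.mem_filter.2 ⟨Finset.mem_univ _, hy⟩
  refine exists_seg (fun _ h => h.1.1) y (vx hv) fun t h0 h1 => ⟨?_, ?_⟩
  · have := St_star hD hv ⟨y.2, hy⟩ h0 (by linarith : (0 : ℝ) ≤ 1 - t) (by ring)
    rw [add_comm] at this
    exact this
  · exact Cs_convex _ (mem_Cs_sp y.2) (vx_mem_Cs hvs) (by linarith) h0 (by ring)

/-- the segment from a point to a vertex of its carrier -/
noncomputable def tv (hD : IsCx D) {v : Fin n} (hv : ({v} : Finset (Fin n)) ∈ D) (y : realization D) (hy : y.1 v ≠ 0) :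
    Path y (vx hv) := (exists_seg_St hD hv y hy).choose

lemma tv_mem (hD : IsCx D) {v : Fin n} (hv : ({v} : Finset (Fin n)) ∈ D) (y : realization D) (hy : y.1 v ≠ 0) (t : I) :
    (tv hD hv y hy t).1 ∈ St D v ∩ Cs (sp y.1) := (exists_seg_St hD hv y hy).choose_spec t

variable {H : Type} [Group H] (τ : Tr (realization D) H)

/-- transports along paths in a common simplex are equal -/
lemma T_eq_Cs {A : Finset (Fin n)} (hA : A ∈ D) {y z : realization D} (γ δ : Path y z) (hγ : ∀ t, (γ t).1 ∈ Cs A)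
    (hδ : ∀ t, (δ t).1 ∈ Cs A) : τ.T γ = τ.T δ := by
  have hy : y.1 ∈ Cs A := by simpa using hγ 0
  exact τ.hom (homotopic_of_star (Cs_sub hA) hy ((Cs_convex A).starConvex hy) γ δ hγ hδ)

lemma trans_mem {S : Set (Fin n → ℝ)} {x y z : realization D} (γ : Path x y) (δ : Path y z) (hγ : ∀ t, (γ t).1 ∈ S)
    (hδ : ∀ t, (δ t).1 ∈ S) (t : I) : ((γ.trans δ) t).1 ∈ S := by
  have h1 : (γ.trans δ) t ∈ Set.range (γ.trans δ) := ⟨t, rfl⟩
  rw [Path.trans_range] at h1
  rcases h1 with ⟨s, hs⟩ | ⟨s, hs⟩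
  · rw [← hs]; exact hγ s
  · rw [← hs]; exact hδ s

open Classical in
/-- the labelling defined by a transport -/
noncomputable def lab (D : Finset (Finset (Fin n))) (τ : Tr (realization D) H) (u v : Fin n) : H :=
  if h : ∃ (hu : ({u} : Finset (Fin n)) ∈ D) (hv : ({v} : Finset (Fin n)) ∈ D) (γ : Path (vx hu) (vx hv)),
    ∀ t, (γ t).1 ∈ Cs {u, v} then τ.T h.choose_spec.choose_spec.choose else 1

lemma lab_eq {A : Finset (Fin n)} (hD : IsCx D) (hA : A ∈ D) {u v : Fin n} (hu : u ∈ A) (hv : v ∈ A)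
    (γ : Path (vx (single_mem hD hA hu)) (vx (single_mem hD hA hv))) (hγ : ∀ t, (γ t).1 ∈ Cs A) :
    lab D τ u v = τ.T γ := by
  have huv : ({u, v} : Finset (Fin n)) ⊆ A := by
    intro i hi
    rcases Finset.mem_insert.1 hi with h | h
    · rw [h]; exact hu
    · rw [Finset.mem_singleton.1 h]; exact hv
  have huvD : ({u, v} : Finset (Fin n)) ∈ D := hD.2 A hA _ huv
  have hex : ∃ (hu : ({u} : Finset (Fin n)) ∈ D) (hv : ({v} : Finset (Fin n)) ∈ D) (γ : Path (vx hu) (vx hv)),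
      ∀ t, (γ t).1 ∈ Cs {u, v} := ⟨single_mem hD hA hu, single_mem hD hA hv,
        exists_seg_Cs huvD _ _ (vx_mem_Cs (by simp)) (vx_mem_Cs (by simp))⟩
  rw [lab, dif_pos hex]
  have hsub : ∀ y : Fin n → ℝ, y ∈ Cs {u, v} → y ∈ Cs A := fun y hy =>
    ⟨hy.1, hy.2.1, fun i hi => hy.2.2 i fun h => hi (huv h)⟩
  exact T_eq_Cs τ hA _ γ (fun t => hsub _ (hex.choose_spec.choose_spec.choose_spec t)) hγ

lemma lab_flat (hD : IsCx D) : Flat D (lab D τ) := by
  intro u v w h
  have hu : u ∈ ({u, v, w} : Finset (Fin n)) := by simp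
  have hv : v ∈ ({u, v, w} : Finset (Fin n)) := by simp
  have hw : w ∈ ({u, v, w} : Finset (Fin n)) := by simp
  obtain ⟨γ, hγ⟩ := exists_seg_Cs h (vx (single_mem hD h hu)) (vx (single_mem hD h hv)) (vx_mem_Cs hu) (vx_mem_Cs hv)
  obtain ⟨δ, hδ⟩ := exists_seg_Cs h (vx (single_mem hD h hv)) (vx (single_mem hD h hw)) (vx_mem_Cs hv) (vx_mem_Cs hw)
  rw [lab_eq τ hD h hu hv γ hγ, lab_eq τ hD h hv hw δ hδ, ← τ.trans,
    lab_eq τ hD h hu hw (γ.trans δ) (trans_mem γ δ hγ hδ)]

/-- the transport from a point to the vertices of its carrier -/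
lemma tv_lab (hD : IsCx D) {y : realization D} {v w : Fin n} (hv : ({v} : Finset (Fin n)) ∈ D)
    (hw : ({w} : Finset (Fin n)) ∈ D) (hyv : y.1 v ≠ 0) (hyw : y.1 w ≠ 0) :
    τ.T (tv hD hv y hyv) * lab D τ v w = τ.T (tv hD hw y hyw) := by
  have hA := sp_mem hD y.2
  have hvs : v ∈ sp y.1 := Finset.mem_filter.2 ⟨Finset.mem_univ _, hyv⟩
  have hws : w ∈ sp y.1 := Finset.mem_filter.2 ⟨Finset.mem_univ _, hyw⟩
  obtain ⟨δ, hδ⟩ := exists_seg_Cs hA (vx hv) (vx hw) (vx_mem_Cs hvs) (vx_mem_Cs hws)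
  rw [lab_eq τ hD hA hvs hws δ hδ, ← τ.trans]
  exact T_eq_Cs τ hA _ _ (trans_mem _ _ (fun t => (tv_mem hD hv y hyv t).2) hδ) fun t => (tv_mem hD hw y hyw t).2

/-- the point is joined to the vertices -/
lemma joined_all (hD : IsCx D) (hE : EConn D) (x y : realization D) : Joined x y := by
  obtain ⟨v, hv⟩ := exists_sp x.2
  obtain ⟨w, hw⟩ := exists_sp y.2
  have hxv := (Finset.mem_filter.1 hv).2
  have hyw := (Finset.mem_filter.1 hw).2
  have hvD := single_mem hD (sp_mem hD x.2) hv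
  have hwD := single_mem hD (sp_mem hD y.2) hw
  have h1 : Joined x (vx hvD) := ⟨tv hD hvD x hxv⟩
  have h2 : Joined y (vx hwD) := ⟨tv hD hwD y hyw⟩
  have h3 : ∀ w, Relation.ReflTransGen (fun a b => ({a, b} : Finset (Fin n)) ∈ D) v w →
      ∃ hw : ({w} : Finset (Fin n)) ∈ D, Joined (vx hvD) (vx hw) := by
    intro w h
    induction h with
    | refl => exact ⟨hvD, Joined.refl _⟩
    | @tail b c _ hbc ih =>
      obtain ⟨hb, hj⟩ := ih
      have hc : ({c} : Finset (Fin n)) ∈ D := single_mem hD hbc (by simp)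
      obtain ⟨γ, -⟩ := exists_seg_Cs hbc (vx hb) (vx hc) (vx_mem_Cs (by simp)) (vx_mem_Cs (by simp))
      exact ⟨hc, hj.trans ⟨γ⟩⟩
  obtain ⟨hw', h4⟩ := h3 w (hE v w hvD hwD)
  exact (h1.trans h4).trans h2.symm

end star

theorem t_PI1 : Pool.Agent.L0h44.LC.S_PI1 := by
  intro n D hD hE H _ hflat x φ
  have P : ∀ y : realization D, Path x y := fun y => (joined_all hD hE x y).somePath
  refine ofHom_trivial x φ (fun y => P y) fun γ => ?_
  set τ := ofHom x φ (fun y => P y) with hτ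
  obtain ⟨g, hg⟩ := hflat (lab D τ) (lab_flat τ hD)
  choose vv hvv using fun y : realization D => exists_sp y.2
  have hvne : ∀ y : realization D, y.1 (vv y) ≠ 0 := fun y => (Finset.mem_filter.1 (hvv y)).2
  have hvD : ∀ y : realization D, ({vv y} : Finset (Fin n)) ∈ D := fun y => single_mem hD (sp_mem hD y.2) (hvv y)
  set f : realization D → H := fun y => τ.T (tv hD (hvD y) y (hvne y)) * (g (vv y))⁻¹ with hf
  have hfv : ∀ (y : realization D) (v : Fin n) (hv : ({v} : Finset (Fin n)) ∈ D) (hy : y.1 v ≠ 0),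
      f y = τ.T (tv hD hv y hy) * (g v)⁻¹ := by
    intro y v hv hy
    have h1 := tv_lab τ hD (hvD y) hv (hvne y) hy
    have hvs : v ∈ sp y.1 := Finset.mem_filter.2 ⟨Finset.mem_univ _, hy⟩
    have h2 : ({vv y, v} : Finset (Fin n)) ∈ D := by
      refine hD.2 _ (sp_mem hD y.2) _ fun i hi => ?_
      rcases Finset.mem_insert.1 hi with h | h
      · rw [h]; exact hvv y
      · rw [Finset.mem_singleton.1 h]; exact hvs
    rw [hg _ _ h2] at h1
    simp only [hf]
    rw [← h1]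
    group
  have hcont : ∀ v : Fin n, IsOpen {y : realization D | y.1 v ≠ 0} := by
    intro v
    have : Continuous fun y : realization D => y.1 v := (continuous_apply v).comp continuous_subtype_val
    exact isOpen_ne.preimage this
  have h := τ.global f (fun x => {y | y.1 (vv x) ≠ 0}) (fun x => (hcont _).mem_nhds (hvne x)) (by
    intro x y z γ hγ
    have hy : y.1 (vv x) ≠ 0 := by simpa using hγ 0
    have hz : z.1 (vv x) ≠ 0 := by simpa using hγ 1
    have h1 : τ.T γ = τ.T ((tv hD (hvD x) y hy).trans (tv hD (hvD x) z hz).symm) := by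
      refine τ.hom (homotopic_of_star St_sub (vx_mem_St (hvD x)) (St_star hD (hvD x)) _ _
        (fun t => ⟨(γ t).2, hγ t⟩) (trans_mem _ _ (fun t => (tv_mem hD (hvD x) y hy t).1) ?_))
      intro t
      rw [Path.symm_apply]
      exact (tv_mem hD (hvD x) z hz _).1
    rw [h1, τ.trans, τ.symm, hfv y (vv x) (hvD x) hy, hfv z (vv x) (hvD x) hz]
    group) γ
  rw [h]
  group

end Pool.Agent.L0h10.LC
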